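import Pool.Agent.W734.STB.Stms

/-!
Project STB (helper734), part B2P: positivity of the three-body scattering energy.
-/

set_option autoImplicit false

noncomputable section

namespace Pool.Agent.W557.STB

open MeasureTheory Set Filter Metric Pool.Agent.W734.TWB Pool.Agent.W734.STB

theorem op_le (L : E3 →L[ℝ] ℂ) :
    ‖L‖ ^ 2 ≤ ∑ k : Fin 3, ‖L (EuclideanSpace.single k (1 : ℝ))‖ ^ 2 := by
  have hS : 0 ≤ ∑ k : Fin 3, ‖L (EuclideanSpace.single k (1 : ℝ))‖ ^ 2 := by positivity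
  have h : ‖L‖ ≤ Real.sqrt (∑ k : Fin 3, ‖L (EuclideanSpace.single k (1 : ℝ))‖ ^ 2) := by
    refine L.opNorm_le_bound (Real.sqrt_nonneg _) fun v => ?_
    have hv : L v = ∑ k : Fin 3, v k • L (EuclideanSpace.single k (1 : ℝ)) := by
      conv_lhs => rw [← (EuclideanSpace.basisFun (Fin 3) ℝ).sum_repr v]
      rw [map_sum]
      refine Finset.sum_congr rfl fun k _ => ?_
      rw [map_smul, EuclideanSpace.basisFun_apply, EuclideanSpace.basisFun_repr]
    rw [hv]
    calc ‖∑ k : Fin 3, v k • L (EuclideanSpace.single k (1 : ℝ))‖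
        ≤ ∑ k : Fin 3, ‖L (EuclideanSpace.single k (1 : ℝ))‖ * ‖v k‖ := by
          refine (norm_sum_le _ _).trans (Finset.sum_le_sum fun k _ => ?_)
          rw [norm_smul, mul_comm]
      _ ≤ Real.sqrt (∑ k : Fin 3, ‖L (EuclideanSpace.single k (1 : ℝ))‖ ^ 2) *
          Real.sqrt (∑ k : Fin 3, ‖v k‖ ^ 2) := Real.sum_mul_le_sqrt_mul_sqrt _ _ _
      _ = _ := by rw [← EuclideanSpace.norm_eq]
  calc ‖L‖ ^ 2 ≤ (Real.sqrt (∑ k : Fin 3, ‖L (EuclideanSpace.single k (1 : ℝ))‖ ^ 2)) ^ 2 :=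
        pow_le_pow_left₀ (norm_nonneg _) h 2
    _ = _ := Real.sq_sqrt hS

theorem op6_le (φ : E3 × E3 → ℂ) (p : E3 × E3) : ‖fderiv ℝ φ p‖ ^ 2 ≤ 2 * g6 φ p := by
  set L := fderiv ℝ φ p with hL
  set L1 : E3 →L[ℝ] ℂ := L.comp (ContinuousLinearMap.inl ℝ E3 E3) with hL1
  set L2 : E3 →L[ℝ] ℂ := L.comp (ContinuousLinearMap.inr ℝ E3 E3) with hL2
  have h : ‖L‖ ≤ ‖L1‖ + ‖L2‖ := by
    refine L.opNorm_le_bound (by positivity) fun v => ?_
    have hv : L v = L1 v.1 + L2 v.2 := by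
      rw [hL1, hL2, ContinuousLinearMap.comp_apply, ContinuousLinearMap.comp_apply, ← map_add]
      congr 1
      rw [ContinuousLinearMap.inl_apply, ContinuousLinearMap.inr_apply, Prod.mk_add_mk, add_zero,
        zero_add]
    rw [hv]
    calc ‖L1 v.1 + L2 v.2‖ ≤ ‖L1 v.1‖ + ‖L2 v.2‖ := norm_add_le _ _
      _ ≤ ‖L1‖ * ‖v.1‖ + ‖L2‖ * ‖v.2‖ := add_le_add (L1.le_opNorm _) (L2.le_opNorm _)
      _ ≤ ‖L1‖ * ‖v‖ + ‖L2‖ * ‖v‖ := add_le_add
          (mul_le_mul_of_nonneg_left (norm_fst_le v) (norm_nonneg _))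
          (mul_le_mul_of_nonneg_left (norm_snd_le v) (norm_nonneg _))
      _ = (‖L1‖ + ‖L2‖) * ‖v‖ := by ring
  have h1 := op_le L1
  have h2 := op_le L2
  have h3 : ‖L‖ ^ 2 ≤ (‖L1‖ + ‖L2‖) ^ 2 := pow_le_pow_left₀ (norm_nonneg _) h 2
  have h4 : (‖L1‖ + ‖L2‖) ^ 2 ≤ 2 * (‖L1‖ ^ 2 + ‖L2‖ ^ 2) := by nlinarith [sq_nonneg (‖L1‖ - ‖L2‖)]
  have h5 : ∑ k : Fin 3, ‖L1 (EuclideanSpace.single k (1 : ℝ))‖ ^ 2 +
      ∑ k : Fin 3, ‖L2 (EuclideanSpace.single k (1 : ℝ))‖ ^ 2 ≤ g6 φ p := by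
    rw [← Finset.sum_add_distrib]
    unfold g6
    refine Finset.sum_le_sum fun k _ => ?_
    rw [← hL]
    have h6 : 0 ≤ ‖L ((EuclideanSpace.single k (1 : ℝ) : E3),
      (EuclideanSpace.single k (1 : ℝ) : E3))‖ ^ 2 := by positivity
    have e1 : L1 (EuclideanSpace.single k (1 : ℝ)) =
      L ((EuclideanSpace.single k (1 : ℝ) : E3), 0) := rfl
    have e2 : L2 (EuclideanSpace.single k (1 : ℝ)) =
      L (0, (EuclideanSpace.single k (1 : ℝ) : E3)) := rfl
    rw [e1, e2]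
    linarith
  linarith

theorem g6_cont (φ : E3 × E3 → ℂ) (hφ : ContDiff ℝ 1 φ) : Continuous (g6 φ) := by
  have hcd : Continuous (fderiv ℝ φ) := hφ.continuous_fderiv one_ne_zero
  unfold g6
  refine continuous_finsetSum _ fun k _ => ?_
  exact (((hcd.clm_apply continuous_const).norm.pow 2).add
    ((hcd.clm_apply continuous_const).norm.pow 2)).add
    ((hcd.clm_apply continuous_const).norm.pow 2)

theorem g6_int (φ : E3 × E3 → ℂ) (hφ : ContDiff ℝ 1 φ) (hs : HasCompactSupport φ) :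
    Integrable (g6 φ) := by
  refine (g6_cont φ hφ).integrable_of_hasCompactSupport ?_
  refine (hs.fderiv ℝ).mono ?_
  intro x hx
  rw [Function.mem_support] at hx ⊢
  intro h0
  apply hx
  unfold g6
  rw [h0]
  simp

theorem g6_nonneg (φ : E3 × E3 → ℂ) (p : E3 × E3) : 0 ≤ g6 φ p := by
  unfold g6
  positivity

theorem sob6 : ∃ C : ℝ, 0 ≤ C ∧ ∀ u : E3 × E3 → ℂ, ContDiff ℝ 1 u →
    HasCompactSupport u → ∫ p, ‖u p‖ ^ 3 ≤ C * (∫ p, g6 u p) ^ (3 / 2 : ℝ) := by
  have : (volume : Measure (E3 × E3)).IsAddHaarMeasure := by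
    rw [Measure.volume_eq_prod]
    infer_instance
  obtain ⟨C, hC⟩ : ∃ C : NNReal, ∀ u : E3 × E3 → ℂ, ContDiff ℝ 1 u → HasCompactSupport u →
      eLpNorm u 3 (volume : Measure (E3 × E3)) ≤ C * eLpNorm (fderiv ℝ u) 2 volume := by
    refine ⟨SNormLESNormFDerivOfEqConst ℂ (volume : Measure (E3 × E3)) 2, fun u hu h2u => ?_⟩
    have h := eLpNorm_le_eLpNorm_fderiv_of_eq (E := E3 × E3) (F := ℂ)
      (volume : Measure (E3 × E3)) hu h2u
      (p := 2) (p' := 3) (by norm_num) (by simp) (by simp; norm_num)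
    simpa using h
  refine ⟨(C : ℝ) ^ 3 * 2 ^ (3 / 2 : ℝ), by positivity, fun u hu1 hsu => ?_⟩
  have h1 := hC u hu1 hsu
  have hcu : Continuous u := hu1.continuous
  have hcd : Continuous (fderiv ℝ u) := hu1.continuous_fderiv one_ne_zero
  have hsd : HasCompactSupport (fderiv ℝ u) := hsu.fderiv ℝ
  have m1 : MemLp u 3 (volume : Measure (E3 × E3)) := hcu.memLp_of_hasCompactSupport hsu
  have m2 : MemLp (fderiv ℝ u) 2 (volume : Measure (E3 × E3)) :=
    hcd.memLp_of_hasCompactSupport hsd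
  rw [m1.eLpNorm_eq_integral_rpow_norm (by norm_num) (by norm_num),
    m2.eLpNorm_eq_integral_rpow_norm (by norm_num) (by norm_num)] at h1
  have e6 : ENNReal.toReal 3 = 3 := by norm_num
  have e2 : ENNReal.toReal 2 = 2 := by norm_num
  rw [e6, e2] at h1
  set A := ∫ x, ‖u x‖ ^ (3 : ℝ) with hA
  set D := ∫ x, ‖fderiv ℝ u x‖ ^ (2 : ℝ) with hD
  have hA0 : 0 ≤ A := integral_nonneg fun x => by positivity
  have hD0 : 0 ≤ D := integral_nonneg fun x => by positivity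
  have h2 : A ^ (3 : ℝ)⁻¹ ≤ C * D ^ (2 : ℝ)⁻¹ := by
    rw [← ENNReal.ofReal_coe_nnreal, ← ENNReal.ofReal_mul (NNReal.coe_nonneg C)] at h1
    exact (ENNReal.ofReal_le_ofReal_iff (by positivity)).1 h1
  have h3 : A ≤ (C : ℝ) ^ 3 * D ^ (3 / 2 : ℝ) := by
    have h4 : (A ^ (3 : ℝ)⁻¹) ^ 3 ≤ (C * D ^ (2 : ℝ)⁻¹) ^ 3 :=
      pow_le_pow_left₀ (by positivity) h2 3
    have h5 : (A ^ (3 : ℝ)⁻¹) ^ 3 = A := by
      rw [← Real.rpow_natCast, ← Real.rpow_mul hA0]
      norm_num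
    have h6 : (D ^ (2 : ℝ)⁻¹) ^ 3 = D ^ (3 / 2 : ℝ) := by
      rw [← Real.rpow_natCast, ← Real.rpow_mul hD0]
      norm_num
    rw [h5, mul_pow, h6] at h4
    exact h4
  have h7 : D ≤ 2 * ∫ x, g6 u x := by
    rw [hD, ← integral_const_mul]
    refine integral_mono ?_ ((g6_int u hu1 hsu).const_mul 2) ?_
    · have : (fun x => ‖fderiv ℝ u x‖ ^ (2 : ℝ)) = fun x => ‖fderiv ℝ u x‖ ^ 2 := by
        funext x
        exact Real.rpow_natCast _ 2
      rw [this]
      refine Continuous.integrable_of_hasCompactSupport (hcd.norm.pow 2) ?_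
      refine hsd.mono ?_
      intro x hx
      rw [Function.mem_support] at hx ⊢
      intro h0
      apply hx
      rw [h0]
      simp
    · intro x
      show ‖fderiv ℝ u x‖ ^ (2 : ℝ) ≤ 2 * g6 u x
      rw [Real.rpow_two]
      exact op6_le u x
  have h8 : ∫ x, ‖u x‖ ^ 3 = A := by
    rw [hA]
    refine integral_congr_ae (Filter.Eventually.of_forall fun x => ?_)
    show ‖u x‖ ^ 3 = ‖u x‖ ^ (3 : ℝ)
    rw [← Real.rpow_natCast]
    norm_num
  rw [h8]
  refine h3.trans ?_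
  have hg0 : 0 ≤ ∫ x, g6 u x := integral_nonneg (g6_nonneg u)
  have h9 : D ^ (3 / 2 : ℝ) ≤ (2 * ∫ x, g6 u x) ^ (3 / 2 : ℝ) :=
    Real.rpow_le_rpow hD0 h7 (by norm_num)
  rw [Real.mul_rpow (by norm_num) hg0] at h9
  calc (C : ℝ) ^ 3 * D ^ (3 / 2 : ℝ) ≤
        (C : ℝ) ^ 3 * (2 ^ (3 / 2 : ℝ) * (∫ x, g6 u x) ^ (3 / 2 : ℝ)) :=
          mul_le_mul_of_nonneg_left h9 (by positivity)
    _ = _ := by ring

theorem b2p : S_B2P := by
  intro V hV hne
  obtain ⟨M, hM⟩ := hV.bdd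
  have hM0 : 0 ≤ M := (hV.nonneg 0).trans (hM 0)
  obtain ⟨C, hC0, hC⟩ := sob6
  have hVint : Integrable V := by
    have h1 : IntegrableOn V (tsupport V) := by
      refine Measure.integrableOn_of_bounded (M := M) hV.supp.isCompact.measure_lt_top.ne
        hV.meas.aestronglyMeasurable ?_
      filter_upwards with p
      rw [Real.norm_eq_abs, abs_of_nonneg (hV.nonneg p)]
      exact hM p
    rwa [integrableOn_iff_integrable_of_support_subset (subset_tsupport V)] at h1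
  set I := ∫ p, V p with hI
  have hIpos : 0 < I := by
    have h0 : 0 ≤ I := integral_nonneg hV.nonneg
    rcases h0.lt_or_eq with h | h
    · exact h
    · exact absurd ((integral_eq_zero_iff_of_nonneg hV.nonneg hVint).1 h.symm) hne
  set c := 2 * M * C with hc
  have hc0 : 0 ≤ c := by positivity
  set K0 := (I / (8 * (c + 1))) ^ (2 / 3 : ℝ) with hK0
  have hK0pos : 0 < K0 := Real.rpow_pos_of_pos (by positivity) _
  have hK0' : K0 ^ (3 / 2 : ℝ) = I / (8 * (c + 1)) := by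
    rw [hK0, ← Real.rpow_mul (by positivity)]
    norm_num
  refine lt_of_lt_of_le (lt_min hK0pos (by positivity : 0 < I / 8)) ?_
  unfold b2
  apply le_csInf
  · refine ⟨_, fun _ => 0, contDiff_const, ?_, rfl⟩
    exact HasCompactSupport.zero
  · rintro B ⟨φ, hφ, hs, rfl⟩
    have hφ1 : ContDiff ℝ 1 φ := hφ.of_le (by exact_mod_cast le_top)
    have hJint : Integrable (fun p => V p * ‖1 - φ p‖ ^ 2) := by
      have h1 : IntegrableOn (fun p => V p * ‖1 - φ p‖ ^ 2) (tsupport V) := by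
        obtain ⟨B1, hB1⟩ := hφ.continuous.bounded_above_of_compact_support hs
        refine Measure.integrableOn_of_bounded (M := M * (1 + B1) ^ 2)
          hV.supp.isCompact.measure_lt_top.ne
          (hV.meas.aestronglyMeasurable.mul
            (((continuous_const.sub hφ.continuous).norm.pow 2).aestronglyMeasurable)) ?_
        filter_upwards with p
        rw [Real.norm_eq_abs, abs_of_nonneg (mul_nonneg (hV.nonneg p) (sq_nonneg _))]
        have h2 : ‖1 - φ p‖ ≤ 1 + B1 := by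
          have := norm_sub_le (1 : ℂ) (φ p)
          rw [norm_one] at this
          linarith [hB1 p]
        exact mul_le_mul (hM p) (pow_le_pow_left₀ (norm_nonneg _) h2 2) (sq_nonneg _) hM0
      have h2 : Function.support (fun p => V p * ‖1 - φ p‖ ^ 2) ⊆ tsupport V := by
        intro p hp
        apply subset_tsupport V
        rw [Function.mem_support] at hp ⊢
        intro h0
        apply hp
        simp only [h0, zero_mul]
      rwa [integrableOn_iff_integrable_of_support_subset h2] at h1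
    have hAint : Integrable (fun p => ‖φ p‖ ^ 3) := by
      refine (hφ.continuous.norm.pow 3).integrable_of_hasCompactSupport ?_
      refine hs.mono ?_
      intro x hx
      rw [Function.mem_support] at hx ⊢
      intro h0
      apply hx
      simp [h0]
    rw [integral_add (g6_int φ hφ1 hs) hJint]
    set K := ∫ p, g6 φ p with hK
    have hKnn : 0 ≤ K := integral_nonneg (g6_nonneg φ)
    have hJnn : 0 ≤ ∫ p, V p * ‖1 - φ p‖ ^ 2 :=
      integral_nonneg fun p => mul_nonneg (hV.nonneg p) (sq_nonneg _)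
    have hpt : ∀ p, V p / 4 - 2 * M * ‖φ p‖ ^ 3 ≤ V p * ‖1 - φ p‖ ^ 2 := by
      intro p
      rcases lt_or_ge (‖φ p‖) (1 / 2) with h | h
      · have h1 : 1 / 2 ≤ ‖1 - φ p‖ := by
          have := norm_sub_norm_le (1 : ℂ) (φ p)
          rw [norm_one] at this
          linarith
        have h2 : (1 / 2) ^ 2 ≤ ‖1 - φ p‖ ^ 2 := pow_le_pow_left₀ (by norm_num) h1 2
        have h3 : 0 ≤ 2 * M * ‖φ p‖ ^ 3 := by positivity
        have h4 := mul_le_mul_of_nonneg_left h2 (hV.nonneg p)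
        linarith
      · have h1 : (1 / 2) ^ 3 ≤ ‖φ p‖ ^ 3 := pow_le_pow_left₀ (by norm_num) h 3
        have h2 : 0 ≤ V p * ‖1 - φ p‖ ^ 2 := mul_nonneg (hV.nonneg p) (sq_nonneg _)
        have h3 := hM p
        have h4 := mul_le_mul_of_nonneg_left h1 hM0
        linarith
    have hJ : I / 4 - c * K ^ (3 / 2 : ℝ) ≤ ∫ p, V p * ‖1 - φ p‖ ^ 2 := by
      have h1 := integral_mono ((hVint.div_const 4).sub (hAint.const_mul (2 * M))) hJint hpt
      have h2 : ∫ p, (V p / 4 - 2 * M * ‖φ p‖ ^ 3) = I / 4 - 2 * M * ∫ p, ‖φ p‖ ^ 3 := by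
        rw [integral_sub (hVint.div_const 4) (hAint.const_mul (2 * M)), integral_div,
          integral_const_mul]
      have h3 := mul_le_mul_of_nonneg_left (hC φ hφ1 hs) (by positivity : 0 ≤ 2 * M)
      have h4 : ∫ p, (V p / 4 - 2 * M * ‖φ p‖ ^ 3) ≤ ∫ p, V p * ‖1 - φ p‖ ^ 2 := h1
      rw [h2] at h4
      rw [hc]
      calc I / 4 - 2 * M * C * K ^ (3 / 2 : ℝ) =
            I / 4 - 2 * M * (C * K ^ (3 / 2 : ℝ)) := by ring
        _ ≤ I / 4 - 2 * M * ∫ p, ‖φ p‖ ^ 3 := by linarith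
        _ ≤ _ := h4
    rcases le_or_gt K0 K with h | h
    · exact (min_le_left _ _).trans (by linarith)
    · refine (min_le_right _ _).trans ?_
      have h1 : K ^ (3 / 2 : ℝ) ≤ K0 ^ (3 / 2 : ℝ) := Real.rpow_le_rpow hKnn h.le (by norm_num)
      rw [hK0'] at h1
      have h2 : c * K ^ (3 / 2 : ℝ) ≤ c * (I / (8 * (c + 1))) := mul_le_mul_of_nonneg_left h1 hc0
      have h3 : c * (I / (8 * (c + 1))) ≤ I / 8 := by
        rw [mul_div_assoc', div_le_div_iff₀ (by positivity) (by norm_num)]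
        nlinarith
      linarith

end Pool.Agent.W557.STB
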